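import Pool.Agent.Helper89.A8.Stmts

/-!
# Block A8-M03 (MP_93c1ff_al)

Every nonzero finite `F_2 GL_4(2)`-module contains a common eigenvector of the three 0-Hecke
operators on the fixed points of the upper unitriangular group.
-/

set_option autoImplicit false
set_option linter.unusedSimpArgs false

namespace Pool.Agent.A8

open Matrix

/-! ### the abstract part: words in three operators satisfying the relations of the 0-Hecke
monoid of `S_4` -/

private theorem hecke_aux {V : Type} (z : V) (a b c : V → V)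
    (haa : ∀ x, a (a x) = a x) (hbb : ∀ x, b (b x) = b x) (hcc : ∀ x, c (c x) = c x)
    (hca : ∀ x, c (a x) = a (c x)) (hbab : ∀ x, b (a (b x)) = a (b (a x)))
    (hcbc : ∀ x, c (b (c x)) = b (c (b x))) (x : V) (hx : x ≠ z) :
    ∃ y : V, y ≠ z ∧ (a y = z ∨ a y = y) ∧ (b y = z ∨ b y = y) ∧ (c y = z ∨ c y = y) := by
  have h4 : ∀ x, c (b (a (c x))) = b (c (b (a x))) := fun x => by
    rw [← hca, hcbc]
  by_cases habacba : a (b (a (c (b (a x))))) = z
  swap
  · exact ⟨(a (b (a (c (b (a x)))))), habacba, by simp [haa, hbb, hcc, hca, hbab, hcbc, h4], by simp [haa, hbb, hcc, hca, hbab, hcbc, h4], by simp [haa, hbb, hcc, hca, hbab, hcbc, h4]⟩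
  by_cases hbacba : b (a (c (b (a x)))) = z
  swap
  · exact ⟨(b (a (c (b (a x))))), hbacba, by simp [haa, hbb, hcc, hca, hbab, hcbc, h4, habacba], by simp [haa, hbb, hcc, hca, hbab, hcbc, h4, habacba], by simp [haa, hbb, hcc, hca, hbab, hcbc, h4, habacba]⟩
  by_cases habcba : a (b (c (b (a x)))) = z
  swap
  · exact ⟨(a (b (c (b (a x))))), habcba, by simp [haa, hbb, hcc, hca, hbab, hcbc, h4, habacba], by simp [haa, hbb, hcc, hca, hbab, hcbc, h4, habacba], by simp [haa, hbb, hcc, hca, hbab, hcbc, h4, habacba]⟩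
  by_cases habacb : a (b (a (c (b x)))) = z
  swap
  · exact ⟨(a (b (a (c (b x))))), habacb, by simp [haa, hbb, hcc, hca, hbab, hcbc, h4, habacba], by simp [haa, hbb, hcc, hca, hbab, hcbc, h4, habacba], by simp [haa, hbb, hcc, hca, hbab, hcbc, h4, habacba]⟩
  by_cases hacba : a (c (b (a x))) = z
  swap
  · exact ⟨(a (c (b (a x)))), hacba, by simp [haa, hbb, hcc, hca, hbab, hcbc, h4, hbacba, habcba, habacb], by simp [haa, hbb, hcc, hca, hbab, hcbc, h4, hbacba, habcba, habacb], by simp [haa, hbb, hcc, hca, hbab, hcbc, h4, hbacba, habcba, habacb]⟩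
  by_cases hbcba : b (c (b (a x))) = z
  swap
  · exact ⟨(b (c (b (a x)))), hbcba, by simp [haa, hbb, hcc, hca, hbab, hcbc, h4, hbacba, habcba, habacb], by simp [haa, hbb, hcc, hca, hbab, hcbc, h4, hbacba, habcba, habacb], by simp [haa, hbb, hcc, hca, hbab, hcbc, h4, hbacba, habcba, habacb]⟩
  by_cases habac : a (b (a (c x))) = z
  swap
  · exact ⟨(a (b (a (c x)))), habac, by simp [haa, hbb, hcc, hca, hbab, hcbc, h4, hbacba, habcba, habacb], by simp [haa, hbb, hcc, hca, hbab, hcbc, h4, hbacba, habcba, habacb], by simp [haa, hbb, hcc, hca, hbab, hcbc, h4, hbacba, habcba, habacb]⟩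
  by_cases hbacb : b (a (c (b x))) = z
  swap
  · exact ⟨(b (a (c (b x)))), hbacb, by simp [haa, hbb, hcc, hca, hbab, hcbc, h4, hbacba, habcba, habacb], by simp [haa, hbb, hcc, hca, hbab, hcbc, h4, hbacba, habcba, habacb], by simp [haa, hbb, hcc, hca, hbab, hcbc, h4, hbacba, habcba, habacb]⟩
  by_cases habcb : a (b (c (b x))) = z
  swap
  · exact ⟨(a (b (c (b x)))), habcb, by simp [haa, hbb, hcc, hca, hbab, hcbc, h4, hbacba, habcba, habacb], by simp [haa, hbb, hcc, hca, hbab, hcbc, h4, hbacba, habcba, habacb], by simp [haa, hbb, hcc, hca, hbab, hcbc, h4, hbacba, habcba, habacb]⟩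
  by_cases haba : a (b (a x)) = z
  swap
  · exact ⟨(a (b (a x))), haba, by simp [haa, hbb, hcc, hca, hbab, hcbc, h4, hacba, hbcba, habac, hbacb, habcb], by simp [haa, hbb, hcc, hca, hbab, hcbc, h4, hacba, hbcba, habac, hbacb, habcb], by simp [haa, hbb, hcc, hca, hbab, hcbc, h4, hacba, hbcba, habac, hbacb, habcb]⟩
  by_cases hcba : c (b (a x)) = z
  swap
  · exact ⟨(c (b (a x))), hcba, by simp [haa, hbb, hcc, hca, hbab, hcbc, h4, hacba, hbcba, habac, hbacb, habcb], by simp [haa, hbb, hcc, hca, hbab, hcbc, h4, hacba, hbcba, habac, hbacb, habcb], by simp [haa, hbb, hcc, hca, hbab, hcbc, h4, hacba, hbcba, habac, hbacb, habcb]⟩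
  by_cases hbac : b (a (c x)) = z
  swap
  · exact ⟨(b (a (c x))), hbac, by simp [haa, hbb, hcc, hca, hbab, hcbc, h4, hacba, hbcba, habac, hbacb, habcb], by simp [haa, hbb, hcc, hca, hbab, hcbc, h4, hacba, hbcba, habac, hbacb, habcb], by simp [haa, hbb, hcc, hca, hbab, hcbc, h4, hacba, hbcba, habac, hbacb, habcb]⟩
  by_cases hacb : a (c (b x)) = z
  swap
  · exact ⟨(a (c (b x))), hacb, by simp [haa, hbb, hcc, hca, hbab, hcbc, h4, hacba, hbcba, habac, hbacb, habcb], by simp [haa, hbb, hcc, hca, hbab, hcbc, h4, hacba, hbcba, habac, hbacb, habcb], by simp [haa, hbb, hcc, hca, hbab, hcbc, h4, hacba, hbcba, habac, hbacb, habcb]⟩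
  by_cases hbcb : b (c (b x)) = z
  swap
  · exact ⟨(b (c (b x))), hbcb, by simp [haa, hbb, hcc, hca, hbab, hcbc, h4, hacba, hbcba, habac, hbacb, habcb], by simp [haa, hbb, hcc, hca, hbab, hcbc, h4, hacba, hbcba, habac, hbacb, habcb], by simp [haa, hbb, hcc, hca, hbab, hcbc, h4, hacba, hbcba, habac, hbacb, habcb]⟩
  by_cases habc : a (b (c x)) = z
  swap
  · exact ⟨(a (b (c x))), habc, by simp [haa, hbb, hcc, hca, hbab, hcbc, h4, hacba, hbcba, habac, hbacb, habcb], by simp [haa, hbb, hcc, hca, hbab, hcbc, h4, hacba, hbcba, habac, hbacb, habcb], by simp [haa, hbb, hcc, hca, hbab, hcbc, h4, hacba, hbcba, habac, hbacb, habcb]⟩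
  by_cases hba : b (a x) = z
  swap
  · exact ⟨(b (a x)), hba, by simp [haa, hbb, hcc, hca, hbab, hcbc, h4, haba, hcba, hbac, hacb, hbcb, habc], by simp [haa, hbb, hcc, hca, hbab, hcbc, h4, haba, hcba, hbac, hacb, hbcb, habc], by simp [haa, hbb, hcc, hca, hbab, hcbc, h4, haba, hcba, hbac, hacb, hbcb, habc]⟩
  by_cases hac : a (c x) = z
  swap
  · exact ⟨(a (c x)), hac, by simp [haa, hbb, hcc, hca, hbab, hcbc, h4, haba, hcba, hbac, hacb, hbcb, habc], by simp [haa, hbb, hcc, hca, hbab, hcbc, h4, haba, hcba, hbac, hacb, hbcb, habc], by simp [haa, hbb, hcc, hca, hbab, hcbc, h4, haba, hcba, hbac, hacb, hbcb, habc]⟩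
  by_cases hab : a (b x) = z
  swap
  · exact ⟨(a (b x)), hab, by simp [haa, hbb, hcc, hca, hbab, hcbc, h4, haba, hcba, hbac, hacb, hbcb, habc], by simp [haa, hbb, hcc, hca, hbab, hcbc, h4, haba, hcba, hbac, hacb, hbcb, habc], by simp [haa, hbb, hcc, hca, hbab, hcbc, h4, haba, hcba, hbac, hacb, hbcb, habc]⟩
  by_cases hcb : c (b x) = z
  swap
  · exact ⟨(c (b x)), hcb, by simp [haa, hbb, hcc, hca, hbab, hcbc, h4, haba, hcba, hbac, hacb, hbcb, habc], by simp [haa, hbb, hcc, hca, hbab, hcbc, h4, haba, hcba, hbac, hacb, hbcb, habc], by simp [haa, hbb, hcc, hca, hbab, hcbc, h4, haba, hcba, hbac, hacb, hbcb, habc]⟩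
  by_cases hbc : b (c x) = z
  swap
  · exact ⟨(b (c x)), hbc, by simp [haa, hbb, hcc, hca, hbab, hcbc, h4, haba, hcba, hbac, hacb, hbcb, habc], by simp [haa, hbb, hcc, hca, hbab, hcbc, h4, haba, hcba, hbac, hacb, hbcb, habc], by simp [haa, hbb, hcc, hca, hbab, hcbc, h4, haba, hcba, hbac, hacb, hbcb, habc]⟩
  by_cases ha : a x = z
  swap
  · exact ⟨(a x), ha, by simp [haa, hbb, hcc, hca, hbab, hcbc, h4, hba, hac, hab, hcb, hbc], by simp [haa, hbb, hcc, hca, hbab, hcbc, h4, hba, hac, hab, hcb, hbc], by simp [haa, hbb, hcc, hca, hbab, hcbc, h4, hba, hac, hab, hcb, hbc]⟩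
  by_cases hb : b x = z
  swap
  · exact ⟨(b x), hb, by simp [haa, hbb, hcc, hca, hbab, hcbc, h4, hba, hac, hab, hcb, hbc], by simp [haa, hbb, hcc, hca, hbab, hcbc, h4, hba, hac, hab, hcb, hbc], by simp [haa, hbb, hcc, hca, hbab, hcbc, h4, hba, hac, hab, hcb, hbc]⟩
  by_cases hc : c x = z
  swap
  · exact ⟨(c x), hc, by simp [haa, hbb, hcc, hca, hbab, hcbc, h4, hba, hac, hab, hcb, hbc], by simp [haa, hbb, hcc, hca, hbab, hcbc, h4, hba, hac, hab, hcb, hbc], by simp [haa, hbb, hcc, hca, hbab, hcbc, h4, hba, hac, hab, hcb, hbc]⟩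
  refine ⟨x, hx, ?_, ?_, ?_⟩ <;> exact Or.inl (by assumption)

/-! ### upper unitriangular matrices -/

/-- the explicit unitriangular matrix -/
private def mU (a b c d e f : ZMod 2) : M4 := !![1,a,b,c; 0,1,d,e; 0,0,1,f; 0,0,0,1]

private theorem mU_mul (a b c d e f a' b' c' d' e' f' : ZMod 2) :
    mU a b c d e f * mU a' b' c' d' e' f' =
      mU (a + a') (b' + a * d' + b) (c' + a * e' + b * f' + c) (d + d') (e' + d * f' + e)
        (f + f') := by
  ext i j
  fin_cases i <;> fin_cases j <;> simp [mU, Matrix.mul_apply, Fin.sum_univ_four] <;> ring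

private theorem mU_one : mU 0 0 0 0 0 0 = 1 := by
  ext i j
  fin_cases i <;> fin_cases j <;> simp [mU]

/-- the entry conditions for an upper unitriangular matrix -/
private def isU (A : M4) : Prop := A = mU (A 0 1) (A 0 2) (A 0 3) (A 1 2) (A 1 3) (A 2 3)

private instance (A : M4) : Decidable (isU A) := by unfold isU; infer_instance

private theorem isU_mU (a b c d e f : ZMod 2) : isU (mU a b c d e f) := by
  simp [isU, mU]

private theorem isU_mul {A B : M4} (hA : isU A) (hB : isU B) : isU (A * B) := by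
  rw [isU] at hA hB
  rw [hA, hB, mU_mul]
  exact isU_mU _ _ _ _ _ _

private theorem mU_inv (a b c d e f : ZMod 2) :
    mU a b c d e f * mU a (b + a * d) (c + a * (e + d * f) + b * f) d (e + d * f) f = 1 := by
  rw [mU_mul, ← mU_one]
  congr 1 <;> ring_nf <;> simp [two0]

private theorem mU_four (a b c d e f : ZMod 2) : mU a b c d e f ^ 4 = 1 := by
  have h : mU a b c d e f ^ 4 = (mU a b c d e f * mU a b c d e f) *
      (mU a b c d e f * mU a b c d e f) := by
    simp only [pow_succ, pow_zero, Matrix.one_mul, Matrix.mul_assoc]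
  rw [h, mU_mul, mU_mul, ← mU_one]
  clear h
  have h3 : ∀ a b c d e f : ZMod 2, (a + a + (a + a) = 0) ∧
      (b + a * d + b + (a + a) * (d + d) + (b + a * d + b) = 0) ∧
      (c + a * e + b * f + c + (a + a) * (e + d * f + e) + (b + a * d + b) * (f + f) +
        (c + a * e + b * f + c) = 0) ∧ (e + d * f + e + (d + d) * (f + f) + (e + d * f + e) = 0) := by
    decide +kernel
  obtain ⟨h4, h5, h6, h7⟩ := h3 a b c d e f
  rw [h4, h5, h6, h7, (h3 d b c d e f).1, (h3 f b c d e f).1]

private theorem mU_prod (a b c d e f : ZMod 2) :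
    mU a b c d e f = mU a 0 0 0 0 0 * (mU 0 0 0 d 0 0 * (mU 0 0 0 0 0 f *
      (mU 0 (b + a * d) 0 0 0 0 * (mU 0 0 0 0 (e + d * f) 0 * mU 0 0 (c + a * e) 0 0 0)))) := by
  simp only [mU_mul]
  congr 1 <;> ring_nf <;> simp [two0]

section
variable {X : Type} [AddCommGroup X] [Module RG X]

private theorem fix_aux {x : X} (A : ZMod 2 → M4) (h0 : A 0 = 1) (r : Gam) (h1 : A 1 = r.1)
    (hr : act r x = x) (a : ZMod 2) (g : Gam) (hg : g.1 = A a) : act g x = x := by
  have ha : a = 0 ∨ a = 1 := by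
    clear hg
    revert a
    decide
  rcases ha with rfl | rfl
  · have : g = 1 := Units.ext (by rw [hg, h0]; rfl)
    rw [this, act_one]
  · have : g = r := Units.ext (by rw [hg, h1])
    rw [this, hr]

private def e02 : Gam := mkG (mU 0 1 0 0 0 0) (mU 0 1 0 0 0 0) (by decide) (by decide)
private def e13 : Gam := mkG (mU 0 0 0 0 1 0) (mU 0 0 0 0 1 0) (by decide) (by decide)
private def e03 : Gam := mkG (mU 0 0 1 0 0 0) (mU 0 0 1 0 0 0) (by decide) (by decide)

private theorem e02_eq : e02 = gt * x1 * gt * x1 := by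
  apply Units.ext
  decide
private theorem e13_eq : e13 = x1 * gg * x1 * gg := by
  apply Units.ext
  decide
private theorem e03_eq : e03 = gt * e13 * gt * e13 := by
  apply Units.ext
  decide

/-- an element of `GL_4(2)` from parameters -/
private def gU (a b c d e f : ZMod 2) : Gam :=
  mkG (mU a b c d e f) (mU a (b + a * d) (c + a * (e + d * f) + b * f) d (e + d * f) f)
    (mU_inv a b c d e f) (mul_eq_one_comm.1 (mU_inv a b c d e f))

private theorem fixU {x : X} (hx : ∀ i, act (xr i) x = x) (g : Gam) (hg : isU g.1) :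
    act g x = x := by
  have h0 : act gt x = x := hx 0
  have h1 : act x1 x = x := hx 1
  have h2 : act gg x = x := hx 2
  have h3 : act e02 x = x := by rw [e02_eq]; simp only [act_mul, h0, h1]
  have h4 : act e13 x = x := by rw [e13_eq]; simp only [act_mul, h1, h2]
  have h5 : act e03 x = x := by rw [e03_eq]; simp only [act_mul, h0, h4]
  rw [isU, mU_prod] at hg
  generalize g.1 0 1 = a at hg
  generalize g.1 0 2 + a * g.1 1 2 = b at hg
  generalize g.1 0 3 + a * g.1 1 3 = c at hg
  generalize g.1 1 3 + g.1 1 2 * g.1 2 3 = e at hg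
  generalize g.1 1 2 = d at hg
  generalize g.1 2 3 = f at hg
  have hg' : g = gU a 0 0 0 0 0 * (gU 0 0 0 d 0 0 * (gU 0 0 0 0 0 f *
      (gU 0 b 0 0 0 0 * (gU 0 0 0 0 e 0 * gU 0 0 c 0 0 0)))) := Units.ext hg
  rw [hg']
  simp only [act_mul]
  rw [fix_aux (fun c => mU 0 0 c 0 0 0) mU_one e03 rfl h5 c _ rfl,
    fix_aux (fun e => mU 0 0 0 0 e 0) mU_one e13 rfl h4 e _ rfl,
    fix_aux (fun b => mU 0 b 0 0 0 0) mU_one e02 rfl h3 b _ rfl,
    fix_aux (fun f => mU 0 0 0 0 0 f) mU_one gg (by decide) h2 f _ rfl,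
    fix_aux (fun d => mU 0 0 0 d 0 0) mU_one x1 (by decide) h1 d _ rfl,
    fix_aux (fun a => mU a 0 0 0 0 0) mU_one gt (by decide) h0 a _ rfl]

/-! ### existence of a fixed vector -/

/-- the upper unitriangular group -/
private def UG : Subgroup Gam where
  carrier := {g | isU g.1}
  one_mem' := by
    change isU (1 : M4)
    rw [← mU_one]
    exact isU_mU _ _ _ _ _ _
  mul_mem' := fun ha hb => isU_mul ha hb
  inv_mem' := by
    intro a ha
    change isU a.1 at ha
    change isU (a⁻¹).1
    rw [isU] at ha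
    have h := mU_inv (a.1 0 1) (a.1 0 2) (a.1 0 3) (a.1 1 2) (a.1 1 3) (a.1 2 3)
    rw [← ha] at h
    have h6 : (a⁻¹).1 = _ := Units.inv_eq_of_mul_eq_one_right h
    rw [h6]
    exact isU_mU _ _ _ _ _ _

private theorem UG_two : IsPGroup 2 UG := by
  intro g
  refine ⟨2, ?_⟩
  have hg : isU g.1.1 := g.2
  have h5 := mU_four (g.1.1 0 1) (g.1.1 0 2) (g.1.1 0 3) (g.1.1 1 2) (g.1.1 1 3) (g.1.1 2 3)
  rw [isU] at hg
  rw [← hg] at h5
  apply Subtype.ext
  apply Units.ext
  simpa using h5

private theorem exists_fix [Finite X] [Nontrivial X] : ∃ x : X, x ≠ 0 ∧ ∀ i, act (xr i) x = x := by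
  classical
  let _ : MulAction UG X :=
    { smul := fun g x => act g.1 x
      one_smul := fun x => act_one x
      mul_smul := fun g h x => act_mul g.1 h.1 x }
  have hcard : 2 ∣ Nat.card X := by
    obtain ⟨x, hx⟩ := exists_ne (0 : X)
    have h1 : addOrderOf x = 2 := by
      rw [addOrderOf_eq_iff two_pos]
      refine ⟨by rw [two_smul]; exact add_self x, fun m hm hm0 h => hx ?_⟩
      have : m = 1 := by omega
      rw [this, one_smul] at h
      exact h
    rw [← h1]
    exact addOrderOf_dvd_natCard x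
  obtain ⟨b, hb, hb'⟩ := UG_two.exists_fixed_point_of_prime_dvd_card_of_fixed_point X hcard
    (a := (0 : X)) (fun g => act_zero g.1)
  refine ⟨b, fun h => hb' h.symm, fun i => ?_⟩
  have hi : isU (xr i).1 := by
    fin_cases i <;> decide
  exact hb ⟨xr i, hi⟩

/-! ### the operators -/

private noncomputable def opT (g : Gam) (x : X) : X := x + act g x + act (g ^ 2) x

private theorem g3_pow3 (i : Fin 3) : g3 i ^ 3 = 1 := by
  fin_cases i
  · change gr ^ 3 = 1
    apply Units.ext
    decide
  · change gq ^ 3 = 1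
    apply Units.ext
    decide
  · change gs ^ 3 = 1
    apply Units.ext
    decide

/-- the simple reflections -/
private def nn : Fin 3 → Gam :=
  ![mkG !![0,1,0,0; 1,0,0,0; 0,0,1,0; 0,0,0,1] !![0,1,0,0; 1,0,0,0; 0,0,1,0; 0,0,0,1]
      (by decide) (by decide),
    mkG !![1,0,0,0; 0,0,1,0; 0,1,0,0; 0,0,0,1] !![1,0,0,0; 0,0,1,0; 0,1,0,0; 0,0,0,1]
      (by decide) (by decide),
    mkG !![1,0,0,0; 0,1,0,0; 0,0,0,1; 0,0,1,0] !![1,0,0,0; 0,1,0,0; 0,0,0,1; 0,0,1,0]
      (by decide) (by decide)]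

private theorem g3_eq (i : Fin 3) : g3 i = nn i * xr i := by
  fin_cases i
  · apply Units.ext
    decide
  · apply Units.ext
    decide
  · apply Units.ext
    decide

private theorem g3_sq (i : Fin 3) : g3 i ^ 2 = xr i * nn i := by
  fin_cases i
  · apply Units.ext
    decide
  · apply Units.ext
    decide
  · apply Units.ext
    decide

/-- the operator without the identity term -/
private noncomputable def opS (i : Fin 3) (x : X) : X := act (nn i) x + act (xr i) (act (nn i) x)

private theorem opS_add (i : Fin 3) (x y : X) : opS i (x + y) = opS i x + opS i y := by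
  simp only [opS, act_add]
  abel

private theorem opT_add (g : Gam) (x y : X) : opT g (x + y) = opT g x + opT g y := by
  simp only [opT, act_add]
  abel

private theorem opT_eq {x : X} (hx : ∀ i, act (xr i) x = x) (i : Fin 3) :
    opT (g3 i) x = x + opS i x := by
  rw [opT, g3_sq, g3_eq, act_mul, act_mul, hx, opS, add_assoc]

private theorem g_opT (i : Fin 3) (x : X) : act (g3 i) (opT (g3 i) x) = opT (g3 i) x := by
  rw [opT, act_add, act_add, ← act_mul, ← act_mul, ← pow_two, ← pow_succ', g3_pow3, act_one]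
  abel

private theorem opT_opT (i : Fin 3) (x : X) : opT (g3 i) (opT (g3 i) x) = opT (g3 i) x := by
  rw [opT, pow_two, act_mul, g_opT, g_opT, add_self, zero_add]

private theorem opT_comm (x : X) : opT (g3 2) (opT (g3 0) x) = opT (g3 0) (opT (g3 2) x) := by
  have hc : ∀ v : X, act (g3 2) (act (g3 0) v) = act (g3 0) (act (g3 2) v) := by
    intro v
    rw [← act_mul, ← act_mul]
    exact congrArg (fun g => act g v) gs_gr
  simp only [opT, act_add, pow_two, act_mul, hc]
  abel

private theorem xr_sq (i : Fin 3) : xr i * xr i = 1 := by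
  fin_cases i
  · apply Units.ext
    decide
  · apply Units.ext
    decide
  · apply Units.ext
    decide

private theorem xr_opT {x : X} (hx : ∀ i, act (xr i) x = x) (i j : Fin 3) :
    act (xr j) (opT (g3 i) x) = opT (g3 i) x := by
  have key : ∀ g : Gam, isU (g⁻¹ * (xr j * g)).1 → act (xr j) (act g x) = act g x := by
    intro g hg
    have := fixU hx _ hg
    rw [act_mul] at this
    rw [← act_mul]
    conv_rhs => rw [← this]
    rw [act_act_inv]
  rw [opT_eq hx]
  by_cases hij : i = j
  · subst hij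
    rw [act_add, hx, opS, act_add, ← act_mul (xr i) (xr i), xr_sq, act_one]
    abel
  · have h1 : isU ((nn i)⁻¹ * (xr j * nn i)).1 ∧
        isU ((xr i * nn i)⁻¹ * (xr j * (xr i * nn i))).1 := by
      fin_cases i <;> fin_cases j <;> first | exact absurd rfl hij | (constructor <;> decide)
    rw [act_add, hx, opS, act_add, key _ h1.1, ← act_mul (xr i), key _ h1.2]

/-! ### the braid relations -/

private theorem braidS (A B N M y : Gam) (h1 : N * B = y * N) (h2 : M * A = y * M)
    (h3 : N * y = B * N) (h4 : M * y = A * M) (h5 : M * (N * M) = N * (M * N))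
    (h6 : B * A = A * (B * y)) (h7 : y * A = A * y) (h8 : y * B = B * y) (h9 : y * y = 1) (x : X)
    (S T : X → X) (hS : ∀ v, S v = act N v + act A (act N v))
    (hT : ∀ v, T v = act M v + act B (act M v)) :
    S (T (S x)) = T (S (T x)) := by
  have r1 : ∀ v : X, act N (act B v) = act y (act N v) := fun v => by
    rw [← act_mul, h1, act_mul]
  have r2 : ∀ v : X, act M (act A v) = act y (act M v) := fun v => by
    rw [← act_mul, h2, act_mul]
  have r3 : ∀ v : X, act N (act y v) = act B (act N v) := fun v => by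
    rw [← act_mul, h3, act_mul]
  have r4 : ∀ v : X, act M (act y v) = act A (act M v) := fun v => by
    rw [← act_mul, h4, act_mul]
  have r5 : ∀ v : X, act M (act N (act M v)) = act N (act M (act N v)) := fun v => by
    rw [← act_mul, ← act_mul, mul_assoc, h5, act_mul, act_mul]
  have r6 : ∀ v : X, act B (act A v) = act A (act B (act y v)) := fun v => by
    rw [← act_mul, h6, act_mul, act_mul]
  have r7 : ∀ v : X, act y (act A v) = act A (act y v) := fun v => by
    rw [← act_mul, h7, act_mul]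
  have r8 : ∀ v : X, act y (act B v) = act B (act y v) := fun v => by
    rw [← act_mul, h8, act_mul]
  have r9 : ∀ v : X, act y (act y v) = v := fun v => by
    rw [← act_mul, h9, act_one]
  simp only [hS, hT, act_add, r1, r2, r3, r4, r5, r6, r7, r8, r9]
  abel

private theorem braidT {x : X} (hx : ∀ i, act (xr i) x = x) (i j : Fin 3)
    (h : ∀ v : X, opS i (opS j (opS i v)) = opS j (opS i (opS j v))) :
    opT (g3 j) (opT (g3 i) (opT (g3 j) x)) = opT (g3 i) (opT (g3 j) (opT (g3 i) x)) := by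
  have key : ∀ i j, opT (g3 i) (opT (g3 j) (opT (g3 i) x)) =
      x + opS i x + opS j x + opS j (opS i x) + opS i (opS j x) + opS i (opS j (opS i x)) := by
    intro i j
    have hy : ∀ k, act (xr k) (opT (g3 i) x) = opT (g3 i) x := xr_opT hx i
    have hz : ∀ k, act (xr k) (opS j (opT (g3 i) x)) = opS j (opT (g3 i) x) := by
      intro k
      have h1 := xr_opT hy j k
      rw [opT_eq hy, act_add, hy] at h1
      exact add_left_cancel h1
    rw [opT_eq hy, opT_add, opT_opT, opT_eq hz, opT_eq hx, opS_add, opS_add]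
    abel
  rw [key j i, key i j, h]
  abel

private theorem braid01 (v : X) : opS 0 (opS 1 (opS 0 v)) = opS 1 (opS 0 (opS 1 v)) :=
  braidS gt x1 (nn 0) (nn 1) e02 (by apply Units.ext; decide) (by apply Units.ext; decide)
    (by apply Units.ext; decide) (by apply Units.ext; decide) (by apply Units.ext; decide)
    (by apply Units.ext; decide) (by apply Units.ext; decide) (by apply Units.ext; decide)
    (by apply Units.ext; decide) v _ _ (fun _ => rfl) (fun _ => rfl)

private theorem braid12 (v : X) : opS 1 (opS 2 (opS 1 v)) = opS 2 (opS 1 (opS 2 v)) :=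
  braidS x1 gg (nn 1) (nn 2) e13 (by apply Units.ext; decide) (by apply Units.ext; decide)
    (by apply Units.ext; decide) (by apply Units.ext; decide) (by apply Units.ext; decide)
    (by apply Units.ext; decide) (by apply Units.ext; decide) (by apply Units.ext; decide)
    (by apply Units.ext; decide) v _ _ (fun _ => rfl) (fun _ => rfl)

end

theorem bHECKE : S_HECKE := by
  intro X _ _ _ _
  classical
  obtain ⟨x, hx0, hx⟩ := exists_fix (X := X)
  let V : Type := {x : X // ∀ i, act (xr i) x = x}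
  let T : Fin 3 → V → V := fun i v => ⟨opT (g3 i) v.1, fun j => xr_opT v.2 i j⟩
  let z : V := ⟨0, fun i => act_zero _⟩
  have hT : ∀ i (v : V), T i (T i v) = T i v := fun i v => Subtype.ext (opT_opT i v.1)
  obtain ⟨y, hy, h0, h1, h2⟩ := hecke_aux z (T 0) (T 1) (T 2) (hT 0) (hT 1) (hT 2)
    (fun v => Subtype.ext (opT_comm v.1))
    (fun v => Subtype.ext (braidT v.2 0 1 braid01))
    (fun v => Subtype.ext (braidT v.2 1 2 braid12))
    ⟨x, hx⟩ (fun h => hx0 (congrArg Subtype.val h))
  have hall : ∀ i, T i y = z ∨ T i y = y := by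
    intro i
    fin_cases i
    · exact h0
    · exact h1
    · exact h2
  refine ⟨fun i => decide (T i y = z), y.1, fun h => hy (Subtype.ext h), y.2, ?_, ?_⟩
  · intro i hi
    exact congrArg Subtype.val (of_decide_eq_true hi)
  · intro i hi
    have h := congrArg Subtype.val ((hall i).resolve_left (of_decide_eq_false hi))
    have h' : opT (g3 i) y.1 = y.1 := h
    rw [← h']
    exact g_opT i _

end Pool.Agent.A8
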